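import Mathlib
import Pool.Agent.H770R2.Kad.Props

/-! Task WLIM: weak limits of bounded nets along ultrafilters (helper847). -/

open scoped ComplexOrder InnerProductSpace ComplexConjugate

noncomputable section

namespace H770R2.Kad

open H759R2.Kad

universe u v

theorem prove_wlim : G_wlim.{v} := by
  intro H _ _ _ I U T r hr hT
  have hb : ∀ (η ξ : H) (i : I), ‖⟪η, T i ξ⟫_ℂ‖ ≤ r * ‖η‖ * ‖ξ‖ := by
    intro η ξ i
    calc ‖⟪η, T i ξ⟫_ℂ‖ ≤ ‖η‖ * ‖T i ξ‖ := norm_inner_le_norm _ _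
      _ ≤ ‖η‖ * (r * ‖ξ‖) := by
          gcongr
          exact (T i).le_of_opNorm_le (hT i) ξ
      _ = r * ‖η‖ * ‖ξ‖ := by ring
  have hex : ∀ η ξ : H, ∃ z : ℂ, ‖z‖ ≤ r * ‖η‖ * ‖ξ‖ ∧
      Filter.Tendsto (fun i => ⟪η, T i ξ⟫_ℂ) U (nhds z) := by
    intro η ξ
    obtain ⟨z, hz, hl⟩ := (isCompact_closedBall (0 : ℂ) (r * ‖η‖ * ‖ξ‖)).ultrafilter_le_nhds
      (U.map fun i => ⟪η, T i ξ⟫_ℂ) (by
        rw [Ultrafilter.coe_map, Filter.le_principal_iff, Filter.mem_map]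
        exact Filter.univ_mem' fun i => by
          rw [Set.mem_preimage, mem_closedBall_zero_iff]
          exact hb η ξ i)
    exact ⟨z, mem_closedBall_zero_iff.mp hz, hl⟩
  choose B hB1 hB2 using hex
  have huniq : ∀ (η ξ : H) (z : ℂ), Filter.Tendsto (fun i => ⟪η, T i ξ⟫_ℂ) U (nhds z) →
      B η ξ = z := fun η ξ z h => tendsto_nhds_unique (hB2 η ξ) h
  let f : H →ₗ⋆[ℂ] H →ₗ[ℂ] ℂ := LinearMap.mk₂'ₛₗ (starRingEnd ℂ) (RingHom.id ℂ) B
    (fun η η' ξ => huniq _ _ _ (by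
      simpa only [inner_add_left] using (hB2 η ξ).add (hB2 η' ξ)))
    (fun c η ξ => huniq _ _ _ (by
      simpa only [inner_smul_left, smul_eq_mul] using (hB2 η ξ).const_mul (conj c)))
    (fun η ξ ξ' => huniq _ _ _ (by
      simpa only [map_add, inner_add_right] using (hB2 η ξ).add (hB2 η ξ')))
    (fun c η ξ => huniq _ _ _ (by
      simpa only [map_smul, inner_smul_right, smul_eq_mul, RingHom.id_apply] using
        (hB2 η ξ).const_mul c))
  have hf : ∀ η ξ, f η ξ = B η ξ := fun η ξ => rfl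
  let g : H →L⋆[ℂ] H →L[ℂ] ℂ := LinearMap.mkContinuous₂ f r (fun η ξ => by
    rw [hf]
    exact hB1 η ξ)
  have hg : ∀ η ξ, g η ξ = B η ξ := fun η ξ => rfl
  let F : H →L[ℂ] H := InnerProductSpace.continuousLinearMapOfBilin g
  have hF : ∀ η ξ, ⟪F η, ξ⟫_ℂ = B η ξ := fun η ξ =>
    InnerProductSpace.continuousLinearMapOfBilin_apply g η ξ
  refine ⟨ContinuousLinearMap.adjoint F, ?_, fun ξ η => ?_⟩
  · rw [LinearIsometryEquiv.norm_map]
    refine ContinuousLinearMap.opNorm_le_bound _ hr fun η => ?_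
    by_cases h0 : ‖F η‖ = 0
    · rw [h0]
      positivity
    · have h1 : ‖F η‖ * ‖F η‖ ≤ (r * ‖η‖) * ‖F η‖ := by
        have h2 : ‖⟪F η, F η⟫_ℂ‖ = ‖F η‖ * ‖F η‖ := by
          rw [inner_self_eq_norm_sq_to_K, ← sq]
          simp
        rw [← h2, hF]
        exact hB1 η (F η)
      have h3 : 0 < ‖F η‖ := lt_of_le_of_ne (norm_nonneg _) (Ne.symm h0)
      exact le_of_mul_le_mul_right h1 h3
  · rw [ContinuousLinearMap.adjoint_inner_right, hF]
    exact hB2 η ξ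

end H770R2.Kad
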